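import Mathlib
import Pool.Agent.Helper1_PRS.Stmts

/-!
# Squad PRS, module JET, part 1: the vector fields span
-/

set_option autoImplicit false

namespace Pool.Agent.PRS.H43

open MvPolynomial

section Span

variable {V E : Type*} [Fintype V] [DecidableEq V] [Field E]

theorem mem_of_supp (Sp : Submodule E (V → E)) (f : V → E)
    (h : ∀ v, f v ≠ 0 → (Pi.single v 1 : V → E) ∈ Sp) : f ∈ Sp := by
  have h1 : f = ∑ v, f v • (Pi.single v 1 : V → E) := by
    funext w
    simp [Finset.sum_apply, Pi.single_apply]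
  rw [h1]
  refine Submodule.sum_mem _ fun v _ => ?_
  by_cases hv : f v = 0
  · rw [hv, zero_smul]
    exact Sp.zero_mem
  · exact Sp.smul_mem _ (h v hv)

theorem mem_of_sub (Sp : Submodule E (V → E)) (f g : V → E) (hg : g ∈ Sp)
    (h : ∀ v, f v ≠ g v → (Pi.single v 1 : V → E) ∈ Sp) : f ∈ Sp := by
  have h1 : f - g ∈ Sp := mem_of_supp Sp _ fun v hv => h v fun h2 => hv (by
    rw [Pi.sub_apply, h2, sub_self])
  have h2 := Sp.add_mem h1 hg
  rwa [sub_add_cancel] at h2

end Span

abbrev KK (N : ℕ) := (Fin 2 × Fin N) ⊕ (Fin 2 × Fin 3)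

/-- all the vector fields -/
noncomputable def vf (N : ℕ) : KK N → Derivation ℚ (S N) (S N) :=
  Sum.elim (fun q => A q.1 q.2) (fun q => ![T0 N q.1, T1 N q.1, T2 N q.1] q.2)

section

variable {N : ℕ} {E : Type*} [Field E] [CharZero E] (z : J → E) (a : Par N → E)

/-- the value of the vector field at the point -/
noncomputable def dd (k : KK N) : J ⊕ Par N → E := fun w => aeval (Sum.elim z a) (vf N k (X w))

theorem dd_A (c : Fin 2) (i : Fin N) (w : J ⊕ Par N) :
    dd z a (Sum.inl (c, i)) w = if w = Sum.inr (c, i) then (z (c, 0) - a (c, i)) ^ 3 else 0 := by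
  rw [dd, vf, Sum.elim_inl, A, mkDerivation_X]
  split_ifs with h
  · rw [map_pow, map_sub, jv, pa, aeval_X, aeval_X]
    rfl
  · exact map_zero _

theorem dd_T0 (c : Fin 2) (w : J ⊕ Par N) :
    dd z a (Sum.inr (c, 0)) w =
      Sum.elim (fun q => if q = (c, 0) then 1 else 0) (fun q => if q.1 = c then 1 else 0) w := by
  rw [dd, vf, Sum.elim_inr]
  change aeval _ (T0 N c (X w)) = _
  rw [T0, mkDerivation_X]
  rcases w with q | q <;> simp only [Sum.elim_inl, Sum.elim_inr] <;> split_ifs <;> simp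

theorem dd_T1 (c : Fin 2) (w : J ⊕ Par N) :
    dd z a (Sum.inr (c, 1)) w =
      Sum.elim (fun q => if q.1 = c then z q else 0) (fun q => if q.1 = c then a q else 0) w := by
  rw [dd, vf, Sum.elim_inr]
  change aeval _ (T1 N c (X w)) = _
  rw [T1, mkDerivation_X]
  rcases w with q | q <;> simp only [Sum.elim_inl, Sum.elim_inr] <;> split_ifs
  · rw [jv, aeval_X]; rfl
  · exact map_zero _
  · rw [pa, aeval_X]; rfl
  · exact map_zero _

theorem dd_T2 (c : Fin 2) (w : J ⊕ Par N) :
    dd z a (Sum.inr (c, 2)) w =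
      Sum.elim (fun q => if q.1 = c then
        ![z (c, 0) ^ 2, 2 * (z (c, 0) * z (c, 1)), 2 * z (c, 1) ^ 2 + 2 * (z (c, 0) * z (c, 2))] q.2
        else 0) (fun q => if q.1 = c then a q ^ 2 else 0) w := by
  rw [dd, vf, Sum.elim_inr]
  change aeval _ (T2 N c (X w)) = _
  rw [T2, mkDerivation_X]
  have hj : ∀ l, aeval (Sum.elim z a) (jv N c l) = z (c, l) := fun l => by rw [jv, aeval_X]; rfl
  have h2 : aeval (Sum.elim z a) (2 : S N) = (2 : E) := map_ofNat _ 2
  rcases w with q | q <;> simp only [Sum.elim_inl, Sum.elim_inr] <;> split_ifs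
  · obtain ⟨q1, q2⟩ := q
    fin_cases q2
    · simp [hj]
    · simp [hj, h2]
    · simp [hj, h2]
  · exact map_zero _
  · rw [map_pow, pa, aeval_X]; rfl
  · exact map_zero _

theorem span_all (h1 : ∀ c i, z (c, 0) ≠ a (c, i)) (h2 : ∀ c, z (c, 1) ≠ 0) (v : J ⊕ Par N) :
    (Pi.single v 1 : J ⊕ Par N → E) ∈ Submodule.span E (Set.range (dd z a)) := by
  classical
  set Sp := Submodule.span E (Set.range (dd z a)) with hSp
  have hd : ∀ k, dd z a k ∈ Sp := fun k => Submodule.subset_span ⟨k, rfl⟩
  have hA : ∀ q : Par N, (Pi.single (Sum.inr q) 1 : J ⊕ Par N → E) ∈ Sp := by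
    rintro ⟨c, i⟩
    have h3 : (z (c, 0) - a (c, i)) ^ 3 ≠ 0 := pow_ne_zero _ (sub_ne_zero.2 (h1 c i))
    have h4 : (Pi.single (Sum.inr (c, i)) 1 : J ⊕ Par N → E) =
        ((z (c, 0) - a (c, i)) ^ 3)⁻¹ • dd z a (Sum.inl (c, i)) := by
      funext w
      rw [Pi.smul_apply, dd_A, Pi.single_apply, smul_eq_mul]
      split_ifs
      · rw [inv_mul_cancel₀ h3]
      · rw [mul_zero]
    rw [h4]
    exact Sp.smul_mem _ (hd _)
  have h0 : ∀ c : Fin 2, (Pi.single (Sum.inl (c, 0)) 1 : J ⊕ Par N → E) ∈ Sp := by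
    intro c
    refine mem_of_sub Sp _ _ (hd (Sum.inr (c, 0))) fun w hw => ?_
    rcases w with q | q
    · exfalso
      apply hw
      rw [dd_T0, Sum.elim_inl, Pi.single_apply]
      simp only [Sum.inl.injEq]
    · exact hA q
  -- the fibre directions
  have hv : ∀ (c : Fin 2) (q : J), q.1 = c → q.2 ≠ 1 → q.2 ≠ 2 → q = (c, 0) := by
    rintro c ⟨q1, q2⟩ h3 h4 h5
    simp only at h3 h4 h5
    subst h3
    have : q2 = 0 := by
      fin_cases q2
      · rfl
      · exact absurd rfl h4
      · exact absurd rfl h5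
    rw [this]
  have hT1 : ∀ c : Fin 2, (fun w : J ⊕ Par N => if w = Sum.inl (c, 1) then z (c, 1) else
      if w = Sum.inl (c, 2) then z (c, 2) else 0) ∈ Sp := by
    intro c
    refine mem_of_sub Sp _ _ (hd (Sum.inr (c, 1))) fun w hw => ?_
    rcases w with q | q
    · rw [dd_T1, Sum.elim_inl] at hw
      by_cases hc : q.1 = c
      · by_cases h3 : q.2 = 1
        · exfalso
          apply hw
          have : q = (c, 1) := Prod.ext hc h3
          subst this
          simp
        · by_cases h4 : q.2 = 2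
          · exfalso
            apply hw
            have : q = (c, 2) := Prod.ext hc h4
            subst this
            simp
          · rw [hv c q hc h3 h4]
            exact h0 c
      · exfalso
        apply hw
        rw [if_neg hc, if_neg, if_neg]
        · intro h
          exact hc (by rw [Sum.inl.inj h])
        · intro h
          exact hc (by rw [Sum.inl.inj h])
    · exact hA q
  have hT2 : ∀ c : Fin 2, (fun w : J ⊕ Par N => if w = Sum.inl (c, 1) then
      2 * (z (c, 0) * z (c, 1)) else if w = Sum.inl (c, 2) then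
        2 * z (c, 1) ^ 2 + 2 * (z (c, 0) * z (c, 2)) else 0) ∈ Sp := by
    intro c
    refine mem_of_sub Sp _ _ (hd (Sum.inr (c, 2))) fun w hw => ?_
    rcases w with q | q
    · rw [dd_T2, Sum.elim_inl] at hw
      by_cases hc : q.1 = c
      · by_cases h3 : q.2 = 1
        · exfalso
          apply hw
          have : q = (c, 1) := Prod.ext hc h3
          subst this
          simp
        · by_cases h4 : q.2 = 2
          · exfalso
            apply hw
            have : q = (c, 2) := Prod.ext hc h4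
            subst this
            simp
          · rw [hv c q hc h3 h4]
            exact h0 c
      · exfalso
        apply hw
        rw [if_neg hc, if_neg, if_neg]
        · intro h
          exact hc (by rw [Sum.inl.inj h])
        · intro h
          exact hc (by rw [Sum.inl.inj h])
    · exact hA q
  have h22 : ∀ c : Fin 2, (Pi.single (Sum.inl (c, 2)) 1 : J ⊕ Par N → E) ∈ Sp := by
    intro c
    have h3 : (2 : E) * z (c, 1) ^ 2 ≠ 0 := mul_ne_zero two_ne_zero (pow_ne_zero _ (h2 c))
    have h4 : (Pi.single (Sum.inl (c, 2)) 1 : J ⊕ Par N → E) =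
        ((2 : E) * z (c, 1) ^ 2)⁻¹ • ((fun w : J ⊕ Par N => if w = Sum.inl (c, 1) then
      2 * (z (c, 0) * z (c, 1)) else if w = Sum.inl (c, 2) then
        2 * z (c, 1) ^ 2 + 2 * (z (c, 0) * z (c, 2)) else 0) - (2 * z (c, 0)) •
        (fun w : J ⊕ Par N => if w = Sum.inl (c, 1) then z (c, 1) else
      if w = Sum.inl (c, 2) then z (c, 2) else 0)) := by
      funext w
      rw [Pi.smul_apply, Pi.sub_apply, Pi.smul_apply, Pi.single_apply, smul_eq_mul, smul_eq_mul]
      by_cases h5 : w = Sum.inl (c, 1)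
      · subst h5
        simp only [Sum.inl.injEq, Prod.mk.injEq, true_and, if_true]
        rw [if_neg (by decide)]
        ring
      · by_cases h6 : w = Sum.inl (c, 2)
        · rw [if_pos h6, if_neg h5, if_neg h5, if_pos h6, if_pos h6, eq_comm]
          rw [inv_mul_eq_one₀ h3]
          ring
        · rw [if_neg h6, if_neg h5, if_neg h5, if_neg h6, if_neg h6]
          ring
    rw [h4]
    exact Sp.smul_mem _ (Sp.sub_mem (hT2 c) (Sp.smul_mem _ (hT1 c)))
  have h11 : ∀ c : Fin 2, (Pi.single (Sum.inl (c, 1)) 1 : J ⊕ Par N → E) ∈ Sp := by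
    intro c
    have h3 : z (c, 1) ≠ 0 := h2 c
    have h4 : (Pi.single (Sum.inl (c, 1)) 1 : J ⊕ Par N → E) =
        (z (c, 1))⁻¹ • ((fun w : J ⊕ Par N => if w = Sum.inl (c, 1) then z (c, 1) else
      if w = Sum.inl (c, 2) then z (c, 2) else 0) - (z (c, 2)) •
        (Pi.single (Sum.inl (c, 2)) 1 : J ⊕ Par N → E)) := by
      funext w
      rw [Pi.smul_apply, Pi.sub_apply, Pi.smul_apply, Pi.single_apply, Pi.single_apply,
        smul_eq_mul, smul_eq_mul]
      by_cases h5 : w = Sum.inl (c, 1)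
      · subst h5
        simp only [Sum.inl.injEq, Prod.mk.injEq, true_and, if_true]
        rw [if_neg (by decide), mul_zero, sub_zero, inv_mul_cancel₀ h3]
      · by_cases h6 : w = Sum.inl (c, 2)
        · rw [if_neg h5, if_neg h5, if_pos h6, if_pos h6]
          ring
        · rw [if_neg h5, if_neg h5, if_neg h6, if_neg h6]
          ring
    rw [h4]
    exact Sp.smul_mem _ (Sp.sub_mem (hT1 c) (Sp.smul_mem _ (h22 c)))
  rcases v with ⟨c, l⟩ | q
  · fin_cases l
    · exact h0 c
    · exact h11 c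
    · exact h22 c
  · exact hA q

theorem span_exists (h1 : ∀ c i, z (c, 0) ≠ a (c, i)) (h2 : ∀ c, z (c, 1) ≠ 0)
    (v : J ⊕ Par N) :
    ∃ l : KK N →₀ E, ∀ w, l.sum (fun k c => c * aeval (Sum.elim z a) (vf N k (X w))) =
      if w = v then 1 else 0 := by
  classical
  obtain ⟨l, hl⟩ := (Finsupp.mem_span_range_iff_exists_finsupp).1 (span_all z a h1 h2 v)
  refine ⟨l, fun w => ?_⟩
  have h3 := congrFun hl w
  rw [Pi.single_apply] at h3
  rw [← h3, Finsupp.sum, Finsupp.sum, Finset.sum_apply]
  rfl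

end

end Pool.Agent.PRS.H43
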