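import Mathlib
import Pool.Agent.Helper1_PRS.Stmts
import Pool.Agent.Helper43_PRS.JetA

/-!
# Squad PRS, module JET: consequence of the existence and of the vector fields
-/

set_option autoImplicit false

universe u

namespace Pool.Agent.PRS.H43

open MvPolynomial

/-- the fibre variables: `(c, 0)` is the first derivative of the coordinate `c`, `(c, 1)` the
second one -/
abbrev W := Fin 2 × Fin 2

/-- the base variables -/
abbrev Bs (N : ℕ) := Fin 2 ⊕ Par N

/-- the fibre variable as a jet variable -/
def up (w : W) : J := (w.1, w.2.succ)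

/-- splitting of the variables -/
def spl (N : ℕ) : J ⊕ Par N ≃ W ⊕ Bs N where
  toFun := Sum.elim (fun q => ![Sum.inr (Sum.inl q.1), Sum.inl (q.1, 0), Sum.inl (q.1, 1)] q.2)
    (fun q => Sum.inr (Sum.inr q))
  invFun := Sum.elim (fun w => Sum.inl (up w)) (Sum.elim (fun c => Sum.inl (c, 0)) Sum.inr)
  left_inv := by
    rintro (⟨c, l⟩ | q)
    · fin_cases l <;> rfl
    · rfl
  right_inv := by
    rintro (⟨c, l⟩ | c | q)
    · fin_cases l <;> rfl
    · rfl
    · rfl

/-- the polynomial in the fibre variables -/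
noncomputable def Psi (N : ℕ) : S N ≃ₐ[ℚ] MvPolynomial W (MvPolynomial (Bs N) ℚ) :=
  (renameEquiv ℚ (spl N)).trans (sumAlgEquiv ℚ W (Bs N))

theorem psi_X {N : ℕ} (v : J ⊕ Par N) :
    Psi N (X v) = Sum.elim (fun w => X w) (fun b => C (X b)) (spl N v) := by
  rw [Psi, AlgEquiv.trans_apply, renameEquiv_apply, rename_X]
  rcases spl N v with w | b
  · rw [sumAlgEquiv_X_inl]; rfl
  · rw [sumAlgEquiv_X_inr]; rfl

/-- degrees under a substitution -/
theorem totalDegree_aeval_le {V σ E : Type*} [Field E] [CharZero E] (f : V → MvPolynomial σ E)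
    (w : V → ℕ) (hf : ∀ v, (f v).totalDegree ≤ w v) (n : ℕ) (P : MvPolynomial V ℚ)
    (hP : Deg w n P) : (aeval f P).totalDegree ≤ n := by
  rw [aeval_def, eval₂_eq]
  refine totalDegree_finsetSum_le fun s hs => ?_
  refine (totalDegree_mul _ _).trans ?_
  have h1 : (algebraMap ℚ (MvPolynomial σ E) (coeff s P)).totalDegree = 0 := by
    rw [IsScalarTower.algebraMap_apply ℚ E (MvPolynomial σ E)]
    exact totalDegree_C _
  rw [h1, zero_add]
  refine (totalDegree_finsetProd _ _).trans ?_
  refine le_trans (Finset.sum_le_sum (g := fun v => s v * w v) fun v _ => ?_) (hP s hs)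
  exact (totalDegree_pow _ _).trans (Nat.mul_le_mul_left _ (hf v))

/-- low coefficients under a linear substitution -/
theorem coeff_aeval_low {V σ E : Type*} [Field E] (g : V → MvPolynomial σ E)
    (hg : ∀ v, (g v).IsHomogeneous 1) (n : ℕ) (R : MvPolynomial V E)
    (hR : ∀ s : V →₀ ℕ, s.degree ≤ n → R.coeff s = 0) (t : σ →₀ ℕ) (ht : t.degree ≤ n) :
    (aeval g R).coeff t = 0 := by
  rw [aeval_def, eval₂_eq, coeff_sum]
  refine Finset.sum_eq_zero fun s hs => ?_
  have h1 : n < s.degree := by
    by_contra h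
    exact (mem_support_iff.1 hs) (hR s (not_lt.1 h))
  have h2 : (∏ v ∈ s.support, g v ^ s v).IsHomogeneous (∑ v ∈ s.support, s v) := by
    refine IsHomogeneous.prod _ _ _ fun v _ => ?_
    have := (hg v).pow (s v)
    rwa [one_mul] at this
  have h3 := h2.C_mul (R.coeff s)
  exact h3.coeff_eq_zero (by
    have h4 : s.degree = ∑ v ∈ s.support, s v := rfl
    omega)

section

variable {N : ℕ} {E : Type*} [Field E] [CharZero E] (z : J → E) (a : Par N → E)

/-- specialisation of the base variables -/
noncomputable def Th : S N →ₐ[ℚ] MvPolynomial W E :=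
  aeval (fun v => Sum.elim (fun w => X w)
    (fun b => C (Sum.elim (fun c => z (c, 0)) a b)) (spl N v))

/-- translation in the fibre variables -/
noncomputable def tau : MvPolynomial W E →ₐ[E] MvPolynomial W E :=
  aeval (fun w => C (z (up w)) + X w)

theorem tau_inj : Function.Injective (tau z) := by
  have h : (aeval (fun w => X w - C (z (up w))) : MvPolynomial W E →ₐ[E] MvPolynomial W E).comp
      (tau z) = AlgHom.id E _ := by
    refine algHom_ext fun w => ?_
    rw [AlgHom.comp_apply, tau, aeval_X, map_add, aeval_X, aeval_C, AlgHom.id_apply]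
    change C (z (up w)) + (X w - C (z (up w))) = _
    ring
  intro P Q hPQ
  have h1 := congrArg (aeval (fun w => X w - C (z (up w))) : MvPolynomial W E →ₐ[E] _) hPQ
  rw [← AlgHom.comp_apply, ← AlgHom.comp_apply, h] at h1
  exact h1

theorem th_eq (P : S N) :
    Th z a P = map (aeval (Sum.elim (fun c => z (c, 0)) a) : MvPolynomial (Bs N) ℚ →ₐ[ℚ] E)
      (Psi N P) := by
  have h : Th z a = (mapAlgHom (aeval (Sum.elim (fun c => z (c, 0)) a) :
      MvPolynomial (Bs N) ℚ →ₐ[ℚ] E)).comp (Psi N).toAlgHom := by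
    refine algHom_ext fun v => ?_
    rw [AlgHom.comp_apply, Th, aeval_X]
    change _ = mapAlgHom _ (Psi N (X v))
    rw [psi_X, mapAlgHom_apply]
    rcases spl N v with w | b
    · rw [Sum.elim_inl, Sum.elim_inl, map_X]
    · rw [Sum.elim_inr, Sum.elim_inr, map_C]
      congr 1
      exact (aeval_X _ b).symm
  rw [h]
  rfl

/-- the projection of the tangent variables -/
noncomputable def pr (N : ℕ) (E : Type*) [Field E] : J ⊕ Par N → MvPolynomial W E :=
  fun v => Sum.elim (fun w => X w) (fun _ => 0) (spl N v)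

theorem pr_homog (v : J ⊕ Par N) : (pr N E v).IsHomogeneous 1 := by
  rw [pr]
  rcases spl N v with w | b
  · exact isHomogeneous_X _ _
  · exact isHomogeneous_zero _ _ _

theorem tau_th (P : S N) :
    tau z (Th z a P) = aeval (pr N E) (taylor (Sum.elim z a) P) := by
  have h : ((tau z).restrictScalars ℚ).comp (Th z a) =
      ((aeval (pr N E) : MvPolynomial (J ⊕ Par N) E →ₐ[E] _).restrictScalars ℚ).comp
        (taylor (Sum.elim z a)) := by
    refine algHom_ext fun v => ?_
    rw [AlgHom.comp_apply, AlgHom.comp_apply, Th, taylor, aeval_X, aeval_X,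
      AlgHom.restrictScalars_apply, AlgHom.restrictScalars_apply, map_add, aeval_X, aeval_C, pr]
    rcases v with ⟨c, l⟩ | q
    · fin_cases l
      · change tau z (C (z (c, 0))) = C (z (c, 0)) + 0
        rw [tau, aeval_C, add_zero]
        rfl
      · change tau z (X (c, 0)) = C (z (c, 1)) + X (c, 0)
        rw [tau, aeval_X]
        rfl
      · change tau z (X (c, 1)) = C (z (c, 2)) + X (c, 1)
        rw [tau, aeval_X]
        rfl
    · change tau z (C (a q)) = C (a q) + 0
      rw [tau, aeval_C, add_zero]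
      rfl
  exact congrArg (fun g => g P) h

theorem tau_th_degree (m : ℕ) (P : S N) (hP : Deg (ww N) m P) :
    (tau z (Th z a P)).totalDegree ≤ m := by
  have h : tau z (Th z a P) = aeval (fun v => tau z (Th z a (X v))) P := by
    have h1 : ((tau z).restrictScalars ℚ).comp (Th z a) =
        aeval (fun v => tau z (Th z a (X v))) := by
      refine algHom_ext fun v => ?_
      rw [aeval_X]
      rfl
    exact congrArg (fun g => g P) h1
  rw [h]
  refine totalDegree_aeval_le _ (ww N) (fun v => ?_) m P hP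
  have hC : ∀ x : E, tau z (C x) = C x := fun x => by
    rw [tau, aeval_C]; rfl
  have hX : ∀ w : W, (tau z (X w)).totalDegree ≤ 1 := fun w => by
    rw [tau, aeval_X]
    refine (totalDegree_add _ _).trans ?_
    rw [totalDegree_C, totalDegree_X]
    exact le_refl 1
  rcases v with ⟨c, l⟩ | q
  · fin_cases l
    · change (tau z (Th z a (X (Sum.inl (c, 0))))).totalDegree ≤ 0
      rw [Th, aeval_X]
      change (tau z (C (z (c, 0)))).totalDegree ≤ 0
      rw [hC, totalDegree_C]
    · change (tau z (Th z a (X (Sum.inl (c, 1))))).totalDegree ≤ 1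
      rw [Th, aeval_X]
      exact hX (c, 0)
    · change (tau z (Th z a (X (Sum.inl (c, 2))))).totalDegree ≤ 2
      rw [Th, aeval_X]
      exact (hX (c, 1)).trans (by norm_num)
  · change (tau z (Th z a (X (Sum.inr q)))).totalDegree ≤ 0
    rw [Th, aeval_X]
    change (tau z (C (a q))).totalDegree ≤ 0
    rw [hC, totalDegree_C]

/-- if all Taylor coefficients of degree at most `m` vanish and there are at most `m` derivatives,
the specialised polynomial vanishes -/
theorem th_zero (m : ℕ) (P : S N) (hP : Deg (ww N) m P)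
    (h : ∀ s : J ⊕ Par N →₀ ℕ, s.degree ≤ m → (taylor (Sum.elim z a) P).coeff s = 0) :
    Th z a P = 0 := by
  apply tau_inj z
  rw [map_zero]
  ext t
  rw [coeff_zero]
  by_cases ht : t.degree ≤ m
  · rw [tau_th]
    exact coeff_aeval_low _ pr_homog m _ h t ht
  · by_contra h1
    have h2 := (le_totalDegree (mem_support_iff.2 h1)).trans (tau_th_degree z a m P hP)
    exact ht h2

end

theorem Deg.mono {V R : Type*} [CommSemiring R] {w : V → ℕ} {n n' : ℕ} {P : MvPolynomial V R}
    (h : Deg w n P) (hn : n ≤ n') : Deg w n' P := fun s hs => (h s hs).trans hn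

theorem adm_mono {N m d d' : ℕ} {P : S N} (h : Adm m d P) (hd : d ≤ d') : Adm m d' P :=
  ⟨h.node, fun c => Deg.mono (h.deg c) hd, h.wt⟩

/-- JET -/
theorem jet : ExiStmt → CloStmt → SpnStmt.{u} → JetStmt.{u} := by
  intro exi clo spn
  obtain ⟨m, N₀, hm, hN₀, hex⟩ := exi
  refine ⟨m, N₀, hm, hN₀, fun N hN => ?_⟩
  obtain ⟨P, hP0, hP⟩ := hex N hN
  have hPsi : Psi N P ≠ 0 := by
    intro h
    exact hP0 ((map_eq_zero_iff _ (Psi N).injective).1 h)
  obtain ⟨t, ht⟩ := ne_zero_iff.1 hPsi
  refine ⟨coeff t (Psi N P), ht, ?_⟩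
  intro E _ _ z a h1 h2 h3
  have hT : ∀ s : J ⊕ Par N →₀ ℕ, s.degree ≤ m → (taylor (Sum.elim z a) P).coeff s = 0 := by
    refine spn (V := J ⊕ Par N) (K := KK N) (Sum.elim z a) (fun e => {Q | Adm m e Q}) (vf N)
      ((N - 9) * m) ?_ ?_ (span_exists z a h1 h2) m ((N - 12) * m) P ?_ hP
    · rintro (⟨c, i⟩ | ⟨c, l⟩) e Q hQ
      · exact (clo N m e Q hQ).1 c i
      · have h4 := (clo N m e Q hQ).2 c
        fin_cases l
        · exact h4.1
        · exact h4.2.1
        · exact h4.2.2
    · intro e Q he hQ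
      exact h3 Q (adm_mono hQ he)
    · have : N - 9 = N - 12 + 3 := by omega
      rw [this]
      exact le_of_eq (by ring)
  have hz := th_zero z a m P hP.wt hT
  rw [th_eq] at hz
  have h4 := congrArg (coeff t) hz
  rw [coeff_map, coeff_zero] at h4
  exact h4

end Pool.Agent.PRS.H43
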