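import Mathlib
import Pool.Agent.Helper1_PRS.Stmts

/-!
# Squad PRS, module NDS: the monomials of the building blocks after the node substitution
-/

set_option autoImplicit false

namespace Pool.Agent.PRS.H43

open MvPolynomial

/-- graded set: number of derivatives `m`, degree `A + L` in `u, u', u''` and `B + B'` in
`v, v', v''` with `B' ≤ L` -/
def G (N m A B : ℕ) (P : S N) : Prop :=
  ∀ s ∈ P.support,
    s (Sum.inl (0, 1)) + 2 * s (Sum.inl (0, 2)) + s (Sum.inl (1, 1)) + 2 * s (Sum.inl (1, 2)) = m ∧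
    ∃ L B' : ℕ, B' ≤ L ∧
      s (Sum.inl (0, 0)) + s (Sum.inl (0, 1)) + s (Sum.inl (0, 2)) = A + L ∧
      s (Sum.inl (1, 0)) + s (Sum.inl (1, 1)) + s (Sum.inl (1, 2)) = B + B'

theorem G.add {N m A B : ℕ} {P Q : S N} (hP : G N m A B P) (hQ : G N m A B Q) :
    G N m A B (P + Q) := by
  classical
  intro s hs
  rcases Finset.mem_union.1 (MvPolynomial.support_add hs) with h | h
  · exact hP s h
  · exact hQ s h

theorem G.mul {N m A B m' A' B' : ℕ} {P Q : S N} (hP : G N m A B P) (hQ : G N m' A' B' Q) :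
    G N (m + m') (A + A') (B + B') (P * Q) := by
  classical
  intro s hs
  obtain ⟨s₁, h₁, s₂, h₂, rfl⟩ := Finset.mem_add.1 (MvPolynomial.support_mul P Q hs)
  obtain ⟨a1, L1, B1, b1, c1, d1⟩ := hP s₁ h₁
  obtain ⟨a2, L2, B2, b2, c2, d2⟩ := hQ s₂ h₂
  refine ⟨?_, L1 + L2, B1 + B2, by omega, ?_, ?_⟩ <;> simp only [Finsupp.add_apply] <;> omega

theorem G.cast {N m A B m' A' B' : ℕ} {P : S N} (hP : G N m A B P) (h1 : m = m') (h2 : A = A')
    (h3 : B = B') : G N m' A' B' P := by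
  subst h1 h2 h3
  exact hP

theorem G.one {N : ℕ} : G N 0 0 0 1 := by
  classical
  intro s hs
  have h : s = 0 := by
    by_contra h
    rw [MvPolynomial.mem_support_iff, MvPolynomial.coeff_one, if_neg (Ne.symm h)] at hs
    exact hs rfl
  subst h
  exact ⟨by simp, 0, 0, le_rfl, by simp, by simp⟩

theorem G.pow {N m A B : ℕ} {P : S N} (hP : G N m A B P) (n : ℕ) :
    G N (n * m) (n * A) (n * B) (P ^ n) := by
  induction n with
  | zero => exact G.one.cast (by simp) (by simp) (by simp)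
  | succ n ih =>
    rw [pow_succ]
    exact (ih.mul hP).cast (by ring) (by ring) (by ring)

theorem G.smul {N m A B : ℕ} {P : S N} (hP : G N m A B P) (c : ℚ) : G N m A B (c • P) :=
  fun s hs => hP s (MvPolynomial.support_smul hs)

theorem G.neg {N m A B : ℕ} {P : S N} (hP : G N m A B P) : G N m A B (-P) := by
  have := hP.smul (-1)
  rwa [neg_one_smul] at this

theorem G.sub {N m A B : ℕ} {P Q : S N} (hP : G N m A B P) (hQ : G N m A B Q) :
    G N m A B (P - Q) := by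
  rw [sub_eq_add_neg]
  exact hP.add hQ.neg

theorem support_X {N : ℕ} {v : J ⊕ Par N} {s : J ⊕ Par N →₀ ℕ} (hs : s ∈ (X v : S N).support) :
    s = Finsupp.single v 1 := by
  classical
  rw [MvPolynomial.support_X, Finset.mem_singleton] at hs
  exact hs

theorem G.pa {N : ℕ} (c : Fin 2) (i : Fin N) : G N 0 0 0 (pa c i) := by
  intro s hs
  rw [support_X hs]
  exact ⟨by simp, 0, 0, le_rfl, by simp, by simp⟩

theorem G.u0 {N : ℕ} : G N 0 1 0 (jv N 0 0) := by
  intro s hs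
  rw [support_X hs]
  exact ⟨by simp, 0, 0, le_rfl, by simp, by simp⟩

theorem G.u1 {N : ℕ} : G N 1 1 0 (jv N 0 1) := by
  intro s hs
  rw [support_X hs]
  exact ⟨by simp, 0, 0, le_rfl, by simp, by simp⟩

theorem G.u2 {N : ℕ} : G N 2 1 0 (jv N 0 2) := by
  intro s hs
  rw [support_X hs]
  exact ⟨by simp, 0, 0, le_rfl, by simp, by simp⟩

theorem G.v0 {N : ℕ} : G N 0 0 1 (jv N 1 0) := by
  intro s hs
  rw [support_X hs]
  exact ⟨by simp, 0, 0, le_rfl, by simp, by simp⟩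

theorem G.v1 {N : ℕ} : G N 1 0 1 (jv N 1 1) := by
  intro s hs
  rw [support_X hs]
  exact ⟨by simp, 0, 0, le_rfl, by simp, by simp⟩

theorem G.v2 {N : ℕ} : G N 2 0 1 (jv N 1 2) := by
  intro s hs
  rw [support_X hs]
  exact ⟨by simp, 0, 0, le_rfl, by simp, by simp⟩

/-- weakening: higher order in `u` -/
theorem G.weak {N m A A' B : ℕ} {P : S N} (hP : G N m A B P) (h : A' ≤ A) : G N m A' B P := by
  intro s hs
  obtain ⟨a1, L1, B1, b1, c1, d1⟩ := hP s hs
  exact ⟨a1, L1 + (A - A'), B1, by omega, by omega, d1⟩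

/-- weakening: higher order in `u` and in `v` -/
theorem G.weak2 {N m A B k : ℕ} {P : S N} (hP : G N m (A + k) (B + k) P) : G N m A B P := by
  intro s hs
  obtain ⟨a1, L1, B1, b1, c1, d1⟩ := hP s hs
  exact ⟨a1, L1 + k, B1 + k, by omega, by omega, by omega⟩

theorem node_jv {N : ℕ} (i j : Fin N) (c : Fin 2) (l : Fin 3) :
    node i j (jv N c l) = nodeFun i j (Sum.inl (c, l)) := by
  rw [node, jv, aeval_X]

theorem node_pa {N : ℕ} (i j : Fin N) (c : Fin 2) (l : Fin N) :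
    node i j (pa c l) = pa c l := by
  rw [node, pa, aeval_X]
  rfl

theorem node_x0 {N : ℕ} (i j : Fin N) : node i j (jv N 0 0) = pa 0 i + jv N 0 0 := by
  rw [node_jv]; rfl

theorem node_x1 {N : ℕ} (i j : Fin N) : node i j (jv N 0 1) = jv N 0 1 := by
  rw [node_jv]; rfl

theorem node_x2 {N : ℕ} (i j : Fin N) : node i j (jv N 0 2) = jv N 0 2 := by
  rw [node_jv]; rfl

theorem node_y0 {N : ℕ} (i j : Fin N) :
    node i j (jv N 1 0) = pa 1 j + jv N 0 0 * jv N 1 0 := by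
  rw [node_jv]; rfl

theorem node_y1 {N : ℕ} (i j : Fin N) :
    node i j (jv N 1 1) = jv N 0 1 * jv N 1 0 + jv N 0 0 * jv N 1 1 := by
  rw [node_jv]; rfl

theorem node_y2 {N : ℕ} (i j : Fin N) :
    node i j (jv N 1 2) = jv N 0 2 * jv N 1 0 + 2 * (jv N 0 1 * jv N 1 1) +
      jv N 0 0 * jv N 1 2 := by
  rw [node_jv]; rfl

theorem g_x0 {N : ℕ} (i j : Fin N) : G N 0 0 0 (node i j (jv N 0 0)) := by
  rw [node_x0]
  exact (G.pa 0 i).add (G.u0.weak (Nat.zero_le _))

theorem g_x1 {N : ℕ} (i j : Fin N) : G N 1 1 0 (node i j (jv N 0 1)) := by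
  rw [node_x1]
  exact G.u1

theorem g_x2 {N : ℕ} (i j : Fin N) : G N 2 1 0 (node i j (jv N 0 2)) := by
  rw [node_x2]
  exact G.u2

theorem g_y0 {N : ℕ} (i j : Fin N) : G N 0 0 0 (node i j (jv N 1 0)) := by
  rw [node_y0]
  exact (G.pa 1 j).add (((G.u0.mul G.v0).cast rfl rfl rfl).weak2 (k := 1))

theorem g_y1 {N : ℕ} (i j : Fin N) : G N 1 1 1 (node i j (jv N 1 1)) := by
  rw [node_y1]
  exact ((G.u1.mul G.v0).cast rfl rfl rfl).add ((G.u0.mul G.v1).cast rfl rfl rfl)

theorem g_y2 {N : ℕ} (i j : Fin N) : G N 2 1 1 (node i j (jv N 1 2)) := by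
  rw [node_y2]
  have h : (2 : S N) * (jv N 0 1 * jv N 1 1) = (2 : ℚ) • (jv N 0 1 * jv N 1 1) := by
    rw [MvPolynomial.smul_eq_C_mul]
    congr 1
  rw [h]
  exact (((G.u2.mul G.v0).cast rfl rfl rfl).add
    (((G.u1.mul G.v1).cast rfl rfl rfl).smul 2)).add ((G.u0.mul G.v2).cast rfl rfl rfl)

theorem g_prod {N : ℕ} {A B : ℕ} (i : Fin N) (f : Fin N → S N) (h0 : ∀ l, l ≠ i → G N 0 0 0 (f l))
    (h1 : G N 0 A B (f i)) : G N 0 A B (∏ l, f l) := by
  classical
  rw [← Finset.mul_prod_erase Finset.univ f (Finset.mem_univ i)]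
  have h2 : ∀ s : Finset (Fin N), i ∉ s → G N 0 0 0 (∏ l ∈ s, f l) := by
    intro s
    induction s using Finset.induction_on with
    | empty => intro _; rw [Finset.prod_empty]; exact G.one
    | insert a s ha ih =>
      intro hi
      rw [Finset.mem_insert, not_or] at hi
      rw [Finset.prod_insert ha]
      exact (h0 a (Ne.symm hi.1)).mul (ih hi.2)
  exact h1.mul (h2 _ (Finset.notMem_erase i _))

theorem g_ff0 {N : ℕ} (i j : Fin N) : G N 0 1 0 (node i j (ff N 0)) := by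
  rw [ff, map_prod]
  refine g_prod i _ (fun l _ => ?_) ?_
  · rw [map_sub, node_pa]
    exact (g_x0 i j).sub (G.pa 0 l)
  · rw [map_sub, node_pa, node_x0, add_sub_cancel_left]
    exact G.u0

theorem g_ff1 {N : ℕ} (i j : Fin N) : G N 0 1 1 (node i j (ff N 1)) := by
  rw [ff, map_prod]
  refine g_prod j _ (fun l _ => ?_) ?_
  · rw [map_sub, node_pa]
    exact (g_y0 i j).sub (G.pa 1 l)
  · rw [map_sub, node_pa, node_y0, add_sub_cancel_left]
    exact G.u0.mul G.v0

/-- NDS -/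
theorem nds : NdsStmt := by
  intro N m i j q e f hq s hs
  rw [mons, Finset.mem_filter] at hq
  have hq' := hq.2
  have h : G N m (2 * m) m (node i j (blk N m q e f)) := by
    rw [blk, map_mul, map_mul, map_mul, map_mul, map_mul, map_pow, map_pow, map_pow, map_pow,
      map_pow, map_mul, map_mul, map_pow, map_pow, map_pow]
    refine ((((g_x0 i j).pow e).mul ((g_y0 i j).pow f)).mul
      ((((g_x1 i j).pow q.1).mul ((g_x2 i j).pow q.2.1)).mul ((g_ff0 i j).pow _))).mul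
      ((((g_y1 i j).pow q.2.2.1).mul ((g_y2 i j).pow q.2.2.2)).mul ((g_ff1 i j).pow _))
      |>.cast ?_ ?_ ?_ <;> omega
  obtain ⟨h1, L, B, hB, h2, h3⟩ := h s hs
  refine ⟨(s (Sum.inl (0, 1)), s (Sum.inl (0, 2)), s (Sum.inl (1, 1)), s (Sum.inl (1, 2))), ?_,
    L, B, hB, rfl, rfl, rfl, rfl, h2, h3⟩
  rw [mons, Finset.mem_filter]
  refine ⟨?_, h1⟩
  simp only [Finset.mem_product, Finset.mem_range]
  omega

end Pool.Agent.PRS.H43
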